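import Pool.Agent.Helper64.RN.Goals

/-!
# Project RN (MP_d01c92_ag), packet BWI: branch decompositions from torsos
-/

namespace Pool.Agent.Helper71.RN.BWI

open Pool.Agent.Helper64.IG Pool.Agent.Helper64.RN

/-- A partition of `X` in nonempty parts of connectivity at most one. -/
structure Good {E : Type} [Fintype E] [DecidableEq E] (lam : Finset E → ℕ) (X : Finset E)
    (P : Finset (Finset E)) : Prop where
  ne : ∀ A ∈ P, A.Nonempty
  dis : ∀ A ∈ P, ∀ B ∈ P, A ≠ B → Disjoint A B
  cov : P.biUnion id = X
  le : ∀ A ∈ P, lam A ≤ 1

theorem t : S_BWI := by
  intro E _ _ _ lam w hS h0 h1 hw H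
  classical
  have main : ∀ (n : ℕ) (X : Finset E), X.card = n → X.Nonempty → lam X ≤ 1 → Dec lam w X := by
    intro n
    induction n using Nat.strong_induction_on with
    | _ n ih =>
    intro X hXn hXne hX1
    rcases Nat.lt_or_ge X.card 2 with hc | hc
    · have hc1 : X.card = 1 := by
        have := hXne.card_pos
        omega
      obtain ⟨e, rfl⟩ := Finset.card_eq_one.1 hc1
      exact Dec.single e (le_trans hX1 hw)
    · -- a minimal partition
      obtain ⟨P, hP, hPmin⟩ := Finset.exists_min_image
        (Finset.univ.filter fun P : Finset (Finset E) => Good lam X P ∧ 2 ≤ P.card)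
        Finset.card (by
          refine ⟨X.image fun e => {e}, ?_⟩
          rw [Finset.mem_filter]
          refine ⟨Finset.mem_univ _, ⟨?_, ?_, ?_, ?_⟩, ?_⟩
          · intro A hA
            obtain ⟨e, -, rfl⟩ := Finset.mem_image.1 hA
            exact Finset.singleton_nonempty e
          · intro A hA B hB hAB
            obtain ⟨e, -, rfl⟩ := Finset.mem_image.1 hA
            obtain ⟨f, -, rfl⟩ := Finset.mem_image.1 hB
            rw [Finset.disjoint_singleton]
            rintro rfl
            exact hAB rfl
          · ext a
            simp
          · intro A hA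
            obtain ⟨e, -, rfl⟩ := Finset.mem_image.1 hA
            exact h1 e
          · rw [Finset.card_image_of_injective _ Finset.singleton_injective]
            exact hc)
      rw [Finset.mem_filter] at hP
      obtain ⟨-, hG, hP2⟩ := hP
      have hmin : ∀ Q : Finset (Finset E), Good lam X Q → 2 ≤ Q.card → P.card ≤ Q.card := by
        intro Q hQ hQ2
        exact hPmin Q (Finset.mem_filter.2 ⟨Finset.mem_univ _, hQ, hQ2⟩)
      have hsub : ∀ A ∈ P, A ⊆ X := by
        intro A hA a ha
        rw [← hG.cov]
        exact Finset.mem_biUnion.2 ⟨A, hA, ha⟩
      -- parts are smaller and have decompositions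
      have hdec : ∀ A ∈ P, Dec lam w A := by
        intro A hA
        obtain ⟨B, hB, hAB⟩ : ∃ B ∈ P, B ≠ A := Finset.exists_mem_ne (by omega) A
        obtain ⟨b, hb⟩ := hG.ne B hB
        have hlt : A.card < n := by
          rw [← hXn]
          refine Finset.card_lt_card ⟨hsub A hA, fun h => ?_⟩
          exact Finset.disjoint_left.1 (hG.dis B hB A hA hAB) hb (h (hsub B hB hb))
        exact ih A.card hlt A rfl (hG.ne A hA) (hG.le A hA)
      rcases Nat.lt_or_ge P.card 3 with h3 | h3
      · obtain ⟨A, B, hAB, hPAB⟩ := Finset.card_eq_two.1 (show P.card = 2 by omega)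
        have hA : A ∈ P := by rw [hPAB]; simp
        have hB : B ∈ P := by rw [hPAB]; simp
        have hX : A ∪ B = X := by
          rw [← hG.cov, hPAB]
          ext a
          simp
        rw [← hX]
        refine Dec.join A B (hG.dis A hA B hB hAB) (hdec A hA) (hdec B hB) ?_
        rw [hX]
        exact le_trans hX1 hw
      · -- unions of parts
        have hun : ∀ J ⊆ P, 2 ≤ J.card → J.card < P.card → 2 ≤ lam (J.biUnion id) := by
          intro J hJ hJ2 hJk
          by_contra hcon
          have hle : lam (J.biUnion id) ≤ 1 := by omega
          have hdJ : ∀ A ∈ P, A ∉ J → Disjoint (J.biUnion id) A := by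
            intro A hA hAJ
            rw [Finset.disjoint_left]
            intro a ha ha'
            obtain ⟨B, hB, haB⟩ := Finset.mem_biUnion.1 ha
            have hne : B ≠ A := fun h => hAJ (h ▸ hB)
            exact Finset.disjoint_left.1 (hG.dis B (hJ hB) A hA hne) haB ha'
          have hJne : (J.biUnion id).Nonempty := by
            obtain ⟨A, hA⟩ := Finset.card_pos.1 (show 0 < J.card by omega)
            obtain ⟨a, ha⟩ := hG.ne A (hJ hA)
            exact ⟨a, Finset.mem_biUnion.2 ⟨A, hA, ha⟩⟩
          have hnot : J.biUnion id ∉ P \ J := by
            intro h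
            rw [Finset.mem_sdiff] at h
            obtain ⟨a, ha⟩ := hJne
            exact Finset.disjoint_left.1 (hdJ _ h.1 h.2) ha ha
          have hcard : (insert (J.biUnion id) (P \ J)).card = P.card - J.card + 1 := by
            rw [Finset.card_insert_of_notMem hnot, Finset.card_sdiff_of_subset hJ]
          have hgood : Good lam X (insert (J.biUnion id) (P \ J)) := by
            refine ⟨?_, ?_, ?_, ?_⟩
            · intro A hA
              rcases Finset.mem_insert.1 hA with rfl | hA
              · exact hJne
              · exact hG.ne A (Finset.mem_sdiff.1 hA).1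
            · intro A hA B hB hAB
              rcases Finset.mem_insert.1 hA with rfl | hA
              · rcases Finset.mem_insert.1 hB with rfl | hB
                · exact absurd rfl hAB
                · exact hdJ B (Finset.mem_sdiff.1 hB).1 (Finset.mem_sdiff.1 hB).2
              · rcases Finset.mem_insert.1 hB with rfl | hB
                · exact (hdJ A (Finset.mem_sdiff.1 hA).1 (Finset.mem_sdiff.1 hA).2).symm
                · exact hG.dis A (Finset.mem_sdiff.1 hA).1 B (Finset.mem_sdiff.1 hB).1 hAB
            · rw [← hG.cov]
              ext a
              simp only [Finset.mem_biUnion, Finset.mem_insert, Finset.mem_sdiff, id_eq]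
              constructor
              · rintro ⟨A, rfl | ⟨hA, -⟩, ha⟩
                · obtain ⟨B, hB, haB⟩ := Finset.mem_biUnion.1 ha
                  exact ⟨B, hJ hB, haB⟩
                · exact ⟨A, hA, ha⟩
              · rintro ⟨A, hA, ha⟩
                by_cases hAJ : A ∈ J
                · exact ⟨_, Or.inl rfl, Finset.mem_biUnion.2 ⟨A, hAJ, ha⟩⟩
                · exact ⟨A, Or.inr ⟨hA, hAJ⟩, ha⟩
            · intro A hA
              rcases Finset.mem_insert.1 hA with rfl | hA
              · exact hle
              · exact hG.le A (Finset.mem_sdiff.1 hA).1
          have := hmin _ hgood (by rw [hcard]; omega)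
          rw [hcard] at this
          omega
        have hone : ∀ A ∈ P, lam A = 1 := by
          intro A hA
          obtain ⟨B, hB, hBA⟩ : ∃ B ∈ P, B ≠ A := Finset.exists_mem_ne (by omega) A
          have h2 := hun {A, B} (by
            intro C hC
            rcases Finset.mem_insert.1 hC with rfl | hC
            · exact hA
            · rw [Finset.mem_singleton.1 hC]; exact hB)
            (by rw [Finset.card_pair hBA.symm]) (by rw [Finset.card_pair hBA.symm]; omega)
          have h3 : ({A, B} : Finset (Finset E)).biUnion id = A ∪ B := by
            ext a
            simp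
          rw [h3] at h2
          have h4 := hS.submod A B
          have h5 := hG.le A hA
          have h6 := hG.le B hB
          omega
        have hXc : lam Xᶜ = 1 := by
          rw [hS.symm]
          by_contra hne
          have hX0 : lam X = 0 := by omega
          obtain ⟨A, hA⟩ := Finset.card_pos.1 (show 0 < P.card by omega)
          have h2 := hun (P.erase A) (Finset.erase_subset _ _)
            (by rw [Finset.card_erase_of_mem hA]; omega)
            (by rw [Finset.card_erase_of_mem hA]; omega)
          have h3 : ((P.erase A).biUnion id)ᶜ = Xᶜ ∪ A := by
            ext a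
            rw [Finset.mem_compl, Finset.mem_union, Finset.mem_compl, ← hG.cov]
            simp only [Finset.mem_biUnion, Finset.mem_erase, id_eq]
            constructor
            · intro h
              by_cases haA : a ∈ A
              · exact Or.inr haA
              · refine Or.inl fun ⟨B, hB, haB⟩ => h ⟨B, ⟨?_, hB⟩, haB⟩
                rintro rfl
                exact haA haB
            · rintro (h | h)
              · rintro ⟨B, ⟨-, hB⟩, haB⟩
                exact h ⟨B, hB, haB⟩
              · rintro ⟨B, ⟨hBA, hB⟩, haB⟩
                exact Finset.disjoint_left.1 (hG.dis B hB A hA hBA) haB h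
          have h4 := hS.symm ((P.erase A).biUnion id)
          rw [h3] at h4
          have h5 := hS.submod Xᶜ A
          have h6 := hS.symm X
          have h7 := hG.le A hA
          omega
        have hXcne : (Xᶜ : Finset E).Nonempty := by
          rw [Finset.nonempty_iff_ne_empty]
          intro h
          rw [h, h0] at hXc
          omega
        -- the indexed partition
        set k := P.card with hk
        let e : Fin k ≃ P := (Finset.equivFin P).symm
        let Y : Fin (k + 1) → Finset E := Fin.cons Xᶜ fun i => (e i : Finset E)
        have hY0 : Y 0 = Xᶜ := rfl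
        have hYs : ∀ i : Fin k, Y i.succ = (e i : Finset E) := fun i => rfl
        have hYP : ∀ i : Fin (k + 1), i ≠ 0 → Y i ∈ P := by
          intro i hi
          obtain ⟨j, rfl⟩ := Fin.exists_succ_eq.2 hi
          rw [hYs]
          exact (e j).2
        have hYne : ∀ i, (Y i).Nonempty := by
          intro i
          by_cases hi : i = 0
          · subst hi; exact hXcne
          · exact hG.ne _ (hYP i hi)
        have hYinj : ∀ i j : Fin k, (e i : Finset E) = (e j : Finset E) → i = j := by
          intro i j h
          exact e.injective (Subtype.ext h)
        have hYdis : ∀ i j, i ≠ j → Disjoint (Y i) (Y j) := by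
          have key : ∀ j : Fin (k + 1), j ≠ 0 → Disjoint (Y 0) (Y j) := by
            intro j hj
            rw [hY0, Finset.disjoint_left]
            intro a ha ha'
            exact Finset.mem_compl.1 ha (hsub _ (hYP j hj) ha')
          intro i j hij
          by_cases hi : i = 0
          · subst hi
            exact key j (fun h => hij h.symm)
          · by_cases hj : j = 0
            · subst hj
              exact (key i hi).symm
            · obtain ⟨i', rfl⟩ := Fin.exists_succ_eq.2 hi
              obtain ⟨j', rfl⟩ := Fin.exists_succ_eq.2 hj
              refine hG.dis _ (hYP _ hi) _ (hYP _ hj) ?_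
              intro h
              rw [hYs, hYs] at h
              exact hij (by rw [hYinj i' j' h])
        have hYcov : Finset.univ.biUnion Y = Finset.univ := by
          ext a
          simp only [Finset.mem_biUnion, Finset.mem_univ, true_and, iff_true]
          by_cases ha : a ∈ X
          · rw [← hG.cov] at ha
            obtain ⟨A, hA, haA⟩ := Finset.mem_biUnion.1 ha
            refine ⟨(e.symm ⟨A, hA⟩).succ, ?_⟩
            rw [hYs, Equiv.apply_symm_apply]
            exact haA
          · exact ⟨0, by rw [hY0]; exact Finset.mem_compl.2 ha⟩
        have hYone : ∀ i, lam (Y i) = 1 := by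
          intro i
          by_cases hi : i = 0
          · subst hi; exact hXc
          · exact hone _ (hYP i hi)
        have hYinj' : Function.Injective Y := by
          intro i j h
          by_contra hij
          obtain ⟨a, ha⟩ := hYne i
          exact Finset.disjoint_left.1 (hYdis i j hij) ha (h ▸ ha)
        have hYcompl : ∀ J : Finset (Fin (k + 1)), Jᶜ.biUnion Y = (J.biUnion Y)ᶜ := by
          intro J
          ext a
          rw [Finset.mem_compl]
          simp only [Finset.mem_biUnion, Finset.mem_compl]
          constructor
          · rintro ⟨i, hi, hai⟩ ⟨j, hj, haj⟩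
            have hij : i ≠ j := fun h => hi (h ▸ hj)
            exact Finset.disjoint_left.1 (hYdis i j hij) hai haj
          · intro h
            have ha : a ∈ Finset.univ.biUnion Y := by rw [hYcov]; exact Finset.mem_univ a
            obtain ⟨i, -, hai⟩ := Finset.mem_biUnion.1 ha
            exact ⟨i, fun hi => h ⟨i, hi, hai⟩, hai⟩
        have hY2' : ∀ J : Finset (Fin (k + 1)), 0 ∉ J → 2 ≤ J.card → J.card + 2 ≤ k + 1 →
            2 ≤ lam (J.biUnion Y) := by
          intro J hJ0 hJ2 hJk
          have h4 : (J.image Y).biUnion id = J.biUnion Y := by
            rw [Finset.image_biUnion]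
            rfl
          have h5 : (J.image Y).card = J.card := Finset.card_image_of_injective _ hYinj'
          rw [← h4]
          refine hun (J.image Y) ?_ (by rw [h5]; exact hJ2) (by rw [h5]; omega)
          intro A hA
          obtain ⟨i, hi, rfl⟩ := Finset.mem_image.1 hA
          exact hYP i (fun h => hJ0 (h ▸ hi))
        have hY2 : ∀ J : Finset (Fin (k + 1)), 2 ≤ J.card → J.card + 2 ≤ k + 1 →
            2 ≤ lam (J.biUnion Y) := by
          intro J hJ2 hJk
          by_cases hJ0 : 0 ∈ J
          · have hc1 : Jᶜ.card = k + 1 - J.card := by
              rw [Finset.card_compl, Fintype.card_fin]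
            have h5 := hY2' Jᶜ (by rw [Finset.mem_compl]; exact fun h => h hJ0)
              (by rw [hc1]; omega) (by rw [hc1]; omega)
            rw [hYcompl, hS.symm] at h5
            exact h5
          · exact hY2' J hJ0 hJ2 hJk
        have hfin := H k Y h3 hYne hYdis hYcov hYone hY2
        have hfin' : ∀ J ⊆ P, lam (J.biUnion id) ≤ w := by
          intro J hJ
          have h4 : (Finset.univ.filter fun i : Fin (k + 1) => i ≠ 0 ∧ Y i ∈ J).biUnion Y =
              J.biUnion id := by
            ext a
            simp only [Finset.mem_biUnion, Finset.mem_filter, Finset.mem_univ, true_and, id_eq]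
            constructor
            · rintro ⟨i, ⟨-, hi⟩, ha⟩
              exact ⟨Y i, hi, ha⟩
            · rintro ⟨A, hA, ha⟩
              have h5 : Y (e.symm ⟨A, hJ hA⟩).succ = A := by
                rw [hYs, Equiv.apply_symm_apply]
              exact ⟨(e.symm ⟨A, hJ hA⟩).succ, ⟨Fin.succ_ne_zero _, by rw [h5]; exact hA⟩,
                by rw [h5]; exact ha⟩
          rw [← h4]
          exact hfin _
        have hall : ∀ J : Finset (Finset E), J ⊆ P → J.Nonempty → Dec lam w (J.biUnion id) := by
          intro J
          induction J using Finset.induction_on with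
          | empty =>
            intro _ h
            exact absurd h Finset.not_nonempty_empty
          | insert A J hA ihJ =>
            intro hJP _
            have hAP : A ∈ P := hJP (Finset.mem_insert_self A J)
            have hJ' : J ⊆ P := fun B hB => hJP (Finset.mem_insert_of_mem hB)
            have hw' := hfin' (insert A J) hJP
            rw [Finset.biUnion_insert] at hw' ⊢
            rcases J.eq_empty_or_nonempty with rfl | hJne
            · rw [Finset.biUnion_empty, Finset.union_empty]
              exact hdec A hAP
            · refine Dec.join _ _ ?_ (hdec A hAP) (ihJ hJ' hJne) hw'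
              rw [Finset.disjoint_left]
              intro a ha ha'
              obtain ⟨B, hB, haB⟩ := Finset.mem_biUnion.1 ha'
              have hne : A ≠ B := fun h => hA (h ▸ hB)
              exact Finset.disjoint_left.1 (hG.dis A hAP B (hJ' hB) hne) ha haB
        have := hall P (Finset.Subset.refl P) (Finset.card_pos.1 (by omega))
        rw [hG.cov] at this
        exact this
  refine main _ Finset.univ rfl Finset.univ_nonempty ?_
  have h2 := hS.symm (∅ : Finset E)
  rw [Finset.compl_empty, h0] at h2
  omega

end Pool.Agent.Helper71.RN.BWI
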